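import Mathlib
import Pool.Agent.J4.H12.Bracket5

set_option autoImplicit false

/-!
# Van der Waerden's theorem with bracket polynomials of sums of consecutive gaps next to a record gap

Let `f(x) = log x (log₂ x)² log₄ x / (log₃ x)²`, the size of the largest gaps between consecutive
primes that are known to occur up to `x`.  The bracket polynomials (generalised polynomials) without
constant term are the functions obtained from the variable `n` by finitely many sums, products,
multiplications by real numbers and passages to the nearest integer, for example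
`√2 n [π n] - [√3 [√5 n²]]`.

Theorem.  For every `H` with `1 ≤ H ≤ c f(x)`, all bracket polynomials `q_1, …, q_N` built in at most
`s` layers, all `G_1, …, G_N : ℤ → ℤ^e` whose coordinates are such bracket polynomials (with integer
values), and all colourings of `ℤ^e` with `K` colours there are at least `x^(7/8)` clusters of
`m + 1` consecutive primes up to `x` that follow a gap of size at least `c f(x)`, with gaps
`d_1, …, d_m` between `H` and `C H`, such that for ALL the sums `D = ∑_(i ∈ I) d_i`, `I` nonempty: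

* all `q_j(D)` are at distance less than `ε` from integers;
* the set of the `a` for which `a` and all the `a + G_j(D)` have the same colour has upper Banach
  density at least `η`.

The constants `η`, `c`, `C`, `x₀` depend only on `s`, `N`, `e`, `K`, `m`, `ε`, not on the coefficients.

Method.  Fixed `n`, the function `m ↦ g(n + m) - g(n) - g(m)` is a bracket polynomial of smaller degree
as long as the arguments of the brackets are near to integers; induction on the degree with the
finite unions theorem shows that all brackets are small on all unions of some blocks of every long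
sequence, uniformly.  There the bracket polynomials are set polynomials (functions of finite sets of
bounded degree), and the polynomial Hales-Jewett theorem of the starting library
(`Pool.Agent.Y613.PJ`) applies.  The transfer to prime gaps is `Y898.PolyGaps.gaps_of_blocks`
(helper898), on the record sieve `TH101.RG.core`.
-/

namespace Pool.Agent.Results.MP_ff81b6_nt.BracketPolynomialsOfGapSums

/-- The record scale `f(x) = log x (log₂ x)² log₄ x / (log₃ x)²` (iterated natural logarithms). -/
noncomputable def f (x : ℝ) : ℝ :=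
  Real.log x * (Real.log (Real.log x)) ^ 2 * Real.log (Real.log (Real.log (Real.log x))) /
    (Real.log (Real.log (Real.log x))) ^ 2

/-- The `i`-th prime, numbered from `p 0 = 2`. -/
noncomputable def p (i : ℕ) : ℕ := Nat.nth Nat.Prime i

/-- The gap after the `i`-th prime. -/
noncomputable def d (i : ℕ) : ℤ := (p (i + 1) : ℤ) - p i

/-- The primes `p_n, …, p_(n+m)` are at most `x`, the `m` gaps between them are at least `H` and at
most `C H`, and the gap before `p_n` is at least `c f(x)`. -/
def Cluster (c C x H : ℝ) (m n : ℕ) : Prop :=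
  0 < n ∧ (p (n + m) : ℝ) ≤ x ∧ c * f x ≤ (d (n - 1) : ℝ) ∧
    ∀ i < m, H ≤ (d (n + i) : ℝ) ∧ (d (n + i) : ℝ) ≤ C * H

/-- The bracket polynomials without constant term which are built in at most `s` layers from the
variable by multiplication with real numbers, sums, products and the nearest integer function. -/
inductive Bracket : ℕ → (ℤ → ℝ) → Prop
  | var (s : ℕ) : Bracket s (fun n => (n : ℝ))
  | smul {s : ℕ} {g : ℤ → ℝ} (a : ℝ) : Bracket s g → Bracket (s + 1) (fun n => a * g n)
  | add {s : ℕ} {g h : ℤ → ℝ} : Bracket s g → Bracket s h → Bracket (s + 1) (fun n => g n + h n)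
  | mul {s : ℕ} {g h : ℤ → ℝ} : Bracket s g → Bracket s h → Bracket (s + 1) (fun n => g n * h n)
  | near {s : ℕ} {g : ℤ → ℝ} : Bracket s g → Bracket (s + 1) (fun n => (round (g n) : ℝ))
  | up {s : ℕ} {g : ℤ → ℝ} : Bracket s g → Bracket (s + 1) g

/-- There are arbitrarily large cubes `x + [0, N)^e` in which `A` has density at least `δ`; this
implies that the upper Banach density of `A` is at least `δ`. -/
def UpperDensity {e : ℕ} (A : Set (Fin e → ℤ)) (δ : ℝ) : Prop :=
  ∀ L : ℕ, ∃ N : ℕ, L ≤ N ∧ ∃ x : Fin e → ℤ,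
    δ * (N : ℝ) ^ e ≤ (Set.ncard {v | v ∈ A ∧ ∀ i, x i ≤ v i ∧ v i < x i + N} : ℝ)

theorem cluster_of {c C x H : ℝ} {k n : ℕ} {Q : (Fin k → ℤ) → Prop}
    (h : n ∈ Pool.Agent.Y898.PolyGaps.Cl c C x H k Q) :
    Cluster c C x H k n ∧ Q (fun l => d (n + l)) := by
  obtain ⟨h1, h2, h3, h4, h5⟩ := h
  refine ⟨⟨h1, h2, ?_, fun i hi => ?_⟩, h5⟩
  · unfold d p
    rw [Nat.sub_add_cancel h1]
    push_cast
    exact h3
  · unfold d p
    push_cast
    exact h4 i hi

theorem finite_of {x : ℝ} {k : ℕ} {S : Set ℕ} (h : ∀ n ∈ S, (p (n + k) : ℝ) ≤ x) : S.Finite := by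
  refine (Set.finite_Iic ⌊x⌋₊).subset ?_
  intro n hn
  refine Nat.le_floor (le_trans ?_ (h n hn))
  have h2 : n + k ≤ Nat.nth Nat.Prime (n + k) :=
    (Nat.nth_strictMono Nat.infinite_setOfPred_prime).le_apply
  exact_mod_cast (Nat.le_add_right n k).trans h2

theorem Bracket.toP {s : ℕ} {g : ℤ → ℝ} (h : Bracket s g) :
    Pool.Agent.J4.H12.BK.P (2 ^ s) s g := by
  induction h with
  | var s => exact (Pool.Agent.J4.H12.BK.P.var s).mono Nat.one_le_two_pow le_rfl
  | smul a _ ih => exact (ih.smul a).mono (Nat.pow_le_pow_right (by norm_num) (Nat.le_succ _)) le_rfl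
  | add _ _ ih1 ih2 =>
    exact (ih1.add ih2).mono (Nat.pow_le_pow_right (by norm_num) (Nat.le_succ _)) le_rfl
  | mul _ _ ih1 ih2 => exact (ih1.mul' ih2).mono (by rw [pow_succ]; omega) le_rfl
  | near _ ih => exact ih.near.mono (Nat.pow_le_pow_right (by norm_num) (Nat.le_succ _)) le_rfl
  | up _ ih => exact ih.mono (Nat.pow_le_pow_right (by norm_num) (Nat.le_succ _)) (Nat.le_succ _)

/-- **Bracket polynomials of sums of consecutive gaps next to a record gap.** -/
theorem result (s N e K m : ℕ) (ε : ℝ) (hε : 0 < ε) : ∃ η : ℝ, 0 < η ∧ ∃ c C : ℝ, 0 < c ∧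
    ∃ x₀ : ℝ, ∀ x : ℝ, x₀ ≤ x → ∀ H : ℝ, 1 ≤ H → H ≤ c * f x →
    ∀ q : Fin N → ℤ → ℝ, (∀ j, Bracket s (q j)) →
    ∀ G : Fin N → ℤ → (Fin e → ℤ), (∀ j i, Bracket s (fun n => (G j n i : ℝ))) →
    ∀ χ : (Fin e → ℤ) → Fin K,
    x ^ (7 / 8 : ℝ) ≤ (Set.ncard {n : ℕ | Cluster c C x H m n ∧
      ∀ I : Finset (Fin m), I.Nonempty →
        (∀ j, |q j (∑ i ∈ I, d (n + i)) - round (q j (∑ i ∈ I, d (n + i)))| < ε) ∧
        UpperDensity {a : Fin e → ℤ | ∀ j, χ (a + G j (∑ i ∈ I, d (n + i))) = χ a} η} : ℝ) := by
  obtain ⟨η, hη, c, C, hc, -, h⟩ :=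
    Pool.Agent.J4.H12.BK.gaps (2 ^ s) s N N e K m ε hε
  obtain ⟨x₀, hx₀⟩ := Filter.eventually_atTop.1 h
  refine ⟨η, hη, c, C, hc, x₀, fun x hx H hH hHc q hq G hG χ => ?_⟩
  refine (hx₀ x hx H hH hHc ((List.finRange N).map q) (by simp) (by
    intro g hg
    obtain ⟨j, -, rfl⟩ := List.mem_map.1 hg
    exact (hq j).toP) G (fun j i => (hG j i).toP) χ).trans ?_
  rw [Nat.cast_le]
  refine Set.ncard_le_ncard ?_ (finite_of (k := m) fun n hn => hn.1.2.1)
  intro n hn
  obtain ⟨h1, h2⟩ := cluster_of hn
  refine ⟨h1, fun I hI => ?_⟩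
  obtain ⟨h3, h4⟩ := h2 I hI
  exact ⟨fun j => h3 (q j) (List.mem_map.2 ⟨j, List.mem_finRange j, rfl⟩), h4⟩

end Pool.Agent.Results.MP_ff81b6_nt.BracketPolynomialsOfGapSums
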