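import Pool.Agent.J4.H39.WR.Final

set_option autoImplicit false

/-! # Rational functions modulo a prime in record gaps, for example modular inverses

Let `f_1, ..., f_k` be rational functions over the field with `p` elements whose poles are simple
and rational, such that no non-trivial linear combination of them is a polynomial of degree at most
one; for example `f_i = 1 / (x + i)`, so that the `f_i(x)` are the inverses modulo `p` of
consecutive integers, or `k = 1` and `f_1 = a / x`, where the points `(x, f_1(x))` form a modular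
hyperbola.  We show that every box of volume at least `p ^ (k + 1/2 + δ)` contains many points
`(x, f_1(x), ..., f_k(x))`, with least residues as coordinates, such that `x` and all the `f_i(x)`
lie at the same time in gaps between primes of the record size for the modulus `p`.

Method: Weil's bound for the complete exponential sums with `h_1 f_1 + ... + h_k f_k + c x`, which
is proved here with the `L`-function and the count of the points of an Artin-Schreier curve; the
record gaps come from the joint covering criterion of the starting library. -/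

namespace Pool.Agent.Results.MP_ff81b6_nt.RationalFunctionsInRecordGaps

open Polynomial

/-- The record size of gaps between consecutive primes near `x`, up to a constant. -/
noncomputable def recordGap (x : ℝ) : ℝ :=
  Real.log x * (Real.log (Real.log x)) ^ 2 * Real.log (Real.log (Real.log (Real.log x))) /
    (Real.log (Real.log (Real.log x))) ^ 2

/-- The integer `m` is a proper multiple of a prime number that is at most `z`; in particular `m`
is composite. -/
def SmallFactor (z : ℝ) (m : ℤ) : Prop :=
  ∃ q : ℕ, q.Prime ∧ (q : ℝ) ≤ z ∧ (q : ℤ) ∣ m ∧ (q : ℤ) < m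

/-- The least non-negative residue of the value at the integer `x` of the rational function
`P + ∑ b ∈ B, H b / (X - b)` over the integers modulo `p`. -/
noncomputable def value (p : ℕ) (P : (ZMod p)[X]) (B : Finset (ZMod p)) (H : ZMod p → ZMod p)
    (x : ℕ) : ℕ :=
  (P.eval (x : ZMod p) + ∑ b ∈ B, H b * ((x : ZMod p) - b)⁻¹).val

theorem result (k d : ℕ) (δ : ℝ) (hδ : 0 < δ) (hδ1 : δ ≤ 1) :
    ∃ κ : ℝ, 0 < κ ∧ ∃ p₀ : ℕ, ∀ p : ℕ, p.Prime → p₀ ≤ p →
    -- the rational functions `f i = P i + ∑ b ∈ B, H i b / (X - b)`, of bounded degree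
    ∀ (P : Fin k → (ZMod p)[X]) (B : Finset (ZMod p)) (H : Fin k → ZMod p → ZMod p),
    (∀ i, (P i).natDegree ≤ d) → B.card ≤ d →
    -- no non-trivial linear combination of them is a polynomial of degree at most one
    (∀ h : Fin k → ZMod p, h ≠ 0 →
      (∃ b ∈ B, ∑ i, h i * H i b ≠ 0) ∨ 2 ≤ (∑ i, C (h i) * P i).natDegree) →
    -- the box
    ∀ (a L : ℕ) (c D : Fin k → ℕ), L ≤ p → (∀ i, c i + D i ≤ p) →
    (p : ℝ) ^ ((k : ℝ) + 1 / 2 + δ) ≤ L * ∏ i, (D i : ℝ) →
    (L * ∏ i, (D i : ℝ)) * (p : ℝ) ^ (-((k : ℝ) + δ)) ≤
      Set.ncard {x : ℕ | a ≤ x ∧ x < a + L ∧ (x : ZMod p) ∉ B ∧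
        (∀ i, c i ≤ value p (P i) B (H i) x ∧ value p (P i) B (H i) x < c i + D i) ∧
        ∀ m : ℤ, (|(m : ℝ) - x| ≤ κ * recordGap p ∨
            ∃ i, |(m : ℝ) - (value p (P i) B (H i) x : ℕ)| ≤ κ * recordGap p) →
          SmallFactor ((p : ℝ) ^ δ) m} :=
  Pool.Agent.J4.H39.WR.final k d δ hδ hδ1

end Pool.Agent.Results.MP_ff81b6_nt.RationalFunctionsInRecordGaps
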