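import Pool.Agent.J4.H78.RD.Main

set_option autoImplicit false

/-!
# Record prime gaps around the values of several polynomials at integers with restricted digits

Let `P₁, …, P_r` be real polynomials of degrees at least two whose leading coefficients are not Liouville numbers,
for instance `P_j(x) = α_j x ^ (d_j) + ⋯` with different `d_j ≥ 2` and irrational algebraic numbers `α_j`.  Let `S` be
the set of the integers with `k` digits in base `b` whose `i`-th digit lies in a given set `D i` of at least two digits,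
for all `i`; so `S` may have only `(b ^ k) ^ (log 2 / log b)` elements.  We show that there are many `n ∈ S` such that all
the numbers `P₁(n), …, P_r(n)` lie at the same time in gaps between primes of record size, far from the ends of the gaps.

Method: the joint covering criterion of the starting files (`Pool.Agent.N542.PB.many`, `Pool.Agent.Y961.JR`) requires
exponential sums with a power saving at all the frequencies `h / q`.  For integers with restricted digits this follows
from the inequality of Weyl's type of helper93 (`Pool.Agent.J4.H93.PD.weyl_deg`, `d - 1` differencing steps in blocks of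
digits).  For polynomials of degree one the statement needs stronger hypotheses, as the exponential sum over `S` may be
large also at frequencies which have no good rational approximations.
-/

open Finset Filter Topology

namespace Pool.Agent.Results.MP_ff81b6_nt.RestrictedDigitsInRecordGaps

/-- the record function `log x (log₂ x)² log₄ x / (log₃ x)²` -/
noncomputable def R (x : ℝ) : ℝ :=
  Real.log x * (Real.log (Real.log x)) ^ 2 * Real.log (Real.log (Real.log (Real.log x))) /
    (Real.log (Real.log (Real.log x))) ^ 2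

/-- the integers `n` with `0 ≤ n < b ^ k` whose digit number `i` in base `b` lies in `D i`, for all `i < k` -/
def S (b : ℕ) (D : ℕ → Finset ℕ) (k : ℕ) : Finset ℕ :=
  (range (b ^ k)).filter (fun n => ∀ i < k, n / b ^ i % b ∈ D i)

/-- The real numbers `α j` which belong to the same degree `d j` are not jointly Liouville: the integral linear
combinations of them with coefficients of absolute value at most `H` have distance at least `c H ^ (- μ)` from the
integers. -/
def NotJointlyLiouville {r : ℕ} (d : Fin r → ℕ) (α : Fin r → ℝ) : Prop :=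
  ∃ c μ : ℝ, 0 < c ∧ 0 ≤ μ ∧ ∀ (m : ℕ) (h : Fin r → ℤ) (a : ℤ) (H : ℝ), (∃ j, d j = m ∧ h j ≠ 0) →
    (∀ j, |(h j : ℝ)| ≤ H) → c * H ^ (-μ) ≤ |∑ j, (if d j = m then (h j : ℝ) * α j else 0) - a|

open Classical in
/-- the elements `n` of `A` such that no prime is within `ρ` of any of the numbers `P j (n)` -/
noncomputable def isolated {r : ℕ} (A : Finset ℕ) (P : Fin r → Polynomial ℝ) (ρ : ℝ) : Finset ℕ :=
  A.filter (fun n => ∀ j, ∀ p : ℕ, p.Prime → ρ < |(p : ℝ) - (P j).eval (n : ℝ)|)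

lemma single {r : ℕ} (d : Fin r → ℕ) (α : Fin r → ℝ) (hinj : Function.Injective d) (hirr : ∀ j, Irrational (α j))
    (hL : ∀ j, ¬ Liouville (α j)) : NotJointlyLiouville d α := by
  have h1 : ∀ j, ∃ n : ℕ, ∀ a b : ℤ, 1 < b → 1 / (b : ℝ) ^ n ≤ |α j - a / b| := by
    intro j
    have h2 := hL j
    unfold Liouville at h2
    push Not at h2
    obtain ⟨n, hn⟩ := h2
    refine ⟨n, fun a b hb => hn a b hb ?_⟩
    intro h3
    apply hirr j
    refine ⟨(a : ℚ) / b, ?_⟩
    rw [h3]
    push_cast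
    rfl
  choose n hn using h1
  obtain ⟨N, hN⟩ : ∃ N : ℕ, N = univ.sup n := ⟨_, rfl⟩
  have hnN : ∀ j, n j ≤ N := fun j => by
    rw [hN]
    exact le_sup (f := n) (mem_univ j)
  refine ⟨1 / 2 ^ N, N, by positivity, Nat.cast_nonneg _, fun m h a H hex hH => ?_⟩
  obtain ⟨j₀, hj₀, hh⟩ := hex
  have hsum : ∑ j, (if d j = m then (h j : ℝ) * α j else 0) = h j₀ * α j₀ := by
    rw [sum_eq_single j₀]
    · rw [if_pos hj₀]
    · intro j _ hj
      rw [if_neg]
      intro h2
      exact hj (hinj (h2.trans hj₀.symm))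
    · intro h2
      exact absurd (mem_univ _) h2
  rw [hsum]
  have habs : (1 : ℝ) ≤ |(h j₀ : ℝ)| := by
    have : 1 ≤ |h j₀| := Int.one_le_abs hh
    exact_mod_cast this
  have hH1 : 1 ≤ H := habs.trans (hH j₀)
  have hpos : (0 : ℝ) < |(h j₀ : ℝ)| := by linarith
  have hne : (h j₀ : ℝ) ≠ 0 := by exact_mod_cast hh
  have h3 := hn j₀ (2 * a * (h j₀).sign) (2 * |h j₀|) (by
    have : 1 ≤ |h j₀| := Int.one_le_abs hh
    omega)
  have h4 : (((2 * a * (h j₀).sign : ℤ) : ℝ)) / ((2 * |h j₀| : ℤ) : ℝ) = a / h j₀ := by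
    have h5 : ((h j₀).sign : ℝ) * |(h j₀ : ℝ)| = h j₀ := by
      have := Int.sign_mul_abs (h j₀)
      exact_mod_cast this
    have h6 : ((h j₀).sign : ℝ) * h j₀ = |(h j₀ : ℝ)| := by
      have := Int.sign_mul_self (h j₀)
      exact_mod_cast this
    push_cast
    rw [div_eq_div_iff (by positivity) hne]
    calc 2 * (a : ℝ) * ((h j₀).sign : ℝ) * h j₀ = 2 * a * (((h j₀).sign : ℝ) * h j₀) := by ring
      _ = a * (2 * |(h j₀ : ℝ)|) := by rw [h6]; ring
  rw [h4] at h3
  have h7 : (h j₀ : ℝ) * α j₀ - a = h j₀ * (α j₀ - a / h j₀) := by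
    field_simp
  rw [h7, abs_mul]
  have h8 : 1 / 2 ^ N * H ^ (-(N : ℝ)) ≤ 1 / ((2 * |h j₀| : ℤ) : ℝ) ^ n j₀ := by
    rw [Real.rpow_neg (by linarith), Real.rpow_natCast, ← one_div, one_div_mul_one_div, ← mul_pow]
    apply one_div_le_one_div_of_le (by push_cast; positivity)
    push_cast
    calc (2 * |(h j₀ : ℝ)|) ^ n j₀ ≤ (2 * H) ^ n j₀ :=
          pow_le_pow_left₀ (by positivity) (by have := hH j₀; linarith) _
      _ ≤ (2 * H) ^ N := pow_le_pow_right₀ (by linarith) (hnN j₀)
  have h9 := abs_nonneg (α j₀ - a / h j₀)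
  nlinarith

/-- **Record prime gaps around polynomial values at integers with restricted digits.**  Let `b ≥ 2`, let `d j ≥ 2`,
`j < r`, and `0 < ε ≤ 1`.

1. Let the real numbers `α j` be not jointly Liouville.  There is `κ > 0` such that for all large `k`, for ALL sets of
digits `D 0, …, D (k - 1)` with at least two elements, and for ALL real polynomials `P j = α j X ^ (d j) + ⋯` (the lower
coefficients may depend on `k`) with `P j (n) ≥ b ^ (ε k)` for the `n ∈ S b D k` with `n ≥ b ^ ((1 - ε) k)`: for at least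
`b ^ (- ε k) |S b D k|` of the `n ∈ S b D k` no prime is within `κ R(b ^ k)` of any of the numbers `P j (n)`.

2. In particular this holds for fixed polynomials `P j` of different degrees `d j ≥ 2`, whose leading coefficients are
positive, irrational and not Liouville numbers, for all large `k` and all sets of digits with at least two
elements. -/
theorem result (b r : ℕ) (hb : 2 ≤ b) (hr : 1 ≤ r) (d : Fin r → ℕ) (hd : ∀ j, 2 ≤ d j)
    (ε : ℝ) (hε : 0 < ε) (hε1 : ε ≤ 1) :
    (∀ α : Fin r → ℝ, NotJointlyLiouville d α →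
      ∃ κ : ℝ, 0 < κ ∧ ∃ k₀ : ℕ, ∀ k : ℕ, k₀ ≤ k → ∀ D : ℕ → Finset ℕ,
        (∀ i < k, D i ⊆ range b ∧ 2 ≤ (D i).card) → ∀ P : Fin r → Polynomial ℝ,
        (∀ j, (P j).natDegree ≤ d j ∧ (P j).coeff (d j) = α j) →
        (∀ n ∈ S b D k, ((b : ℝ) ^ k) ^ (1 - ε) ≤ n → ∀ j, ((b : ℝ) ^ k) ^ ε ≤ (P j).eval (n : ℝ)) →
        ((S b D k).card : ℝ) * ((b : ℝ) ^ k) ^ (-ε) ≤ (isolated (S b D k) P (κ * R ((b : ℝ) ^ k))).card) ∧
    (Function.Injective d → ∀ P : Fin r → Polynomial ℝ,
      (∀ j, (P j).natDegree = d j ∧ 0 < (P j).leadingCoeff ∧ Irrational (P j).leadingCoeff ∧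
        ¬ Liouville (P j).leadingCoeff) →
      ∃ κ : ℝ, 0 < κ ∧ ∃ k₀ : ℕ, ∀ k : ℕ, k₀ ≤ k → ∀ D : ℕ → Finset ℕ,
        (∀ i < k, D i ⊆ range b ∧ 2 ≤ (D i).card) →
        ((S b D k).card : ℝ) * ((b : ℝ) ^ k) ^ (-ε) ≤ (isolated (S b D k) P (κ * R ((b : ℝ) ^ k))).card) := by
  classical
  have key : ∀ α : Fin r → ℝ, NotJointlyLiouville d α → ∀ ε : ℝ, 0 < ε → ε ≤ 1 →
      ∃ κ : ℝ, 0 < κ ∧ ∃ k₀ : ℕ, ∀ k : ℕ, k₀ ≤ k → ∀ D : ℕ → Finset ℕ,
        (∀ i < k, D i ⊆ range b ∧ 2 ≤ (D i).card) → ∀ P : Fin r → Polynomial ℝ,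
        (∀ j, (P j).natDegree ≤ d j ∧ (P j).coeff (d j) = α j) →
        (∀ n ∈ S b D k, ((b : ℝ) ^ k) ^ (1 - ε) ≤ n → ∀ j, ((b : ℝ) ^ k) ^ ε ≤ (P j).eval (n : ℝ)) →
        ((S b D k).card : ℝ) * ((b : ℝ) ^ k) ^ (-ε) ≤ (isolated (S b D k) P (κ * R ((b : ℝ) ^ k))).card := by
    intro α hα ε hε hε1
    obtain ⟨κ, hκ, k₀, h⟩ := Pool.Agent.J4.H78.RD.main b r hb hr d hd α hα ε hε hε1
    refine ⟨κ, hκ, k₀, fun k hk D hD P hP hsize => ?_⟩
    obtain ⟨A, hA, h1, h2⟩ := h k hk D hD (fun j y => (P j).eval y) (by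
      intro j
      refine ⟨(P j).coeff, (hP j).2, fun y => ?_⟩
      exact Polynomial.eval_eq_sum_range' (by have := (hP j).1; omega) y) hsize
    refine le_trans h1 (Nat.cast_le.2 (card_le_card ?_))
    intro n hn
    unfold isolated
    rw [mem_filter]
    exact ⟨hA hn, fun j p hp => h2 n hn j p hp⟩
  refine ⟨fun α hα => key α hα ε hε hε1, fun hinj P hP => ?_⟩
  obtain ⟨δ, hδ⟩ : ∃ δ : ℝ, δ = min ε (1 / 2) := ⟨_, rfl⟩
  have hδ0 : 0 < δ := by rw [hδ]; exact lt_min hε (by norm_num)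
  have hδ2 : δ ≤ 1 / 2 := by rw [hδ]; exact min_le_right _ _
  have hδε : δ ≤ ε := by rw [hδ]; exact min_le_left _ _
  obtain ⟨κ, hκ, k₀, h⟩ := key (fun j => (P j).leadingCoeff)
    (single d _ hinj (fun j => (hP j).2.2.1) (fun j => (hP j).2.2.2)) δ hδ0 (by linarith)
  have hbig : ∀ j, ∀ᶠ x : ℝ in atTop, x ≤ (P j).eval x := by
    intro j
    have h1 : (P j - Polynomial.X).natDegree = (P j).natDegree := by
      apply Polynomial.natDegree_sub_eq_left_of_natDegree_lt
      rw [Polynomial.natDegree_X, (hP j).1]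
      have := hd j
      omega
    have h2 : (P j - Polynomial.X).leadingCoeff = (P j).leadingCoeff := by
      apply Polynomial.leadingCoeff_sub_of_degree_lt
      apply Polynomial.degree_lt_degree
      rw [Polynomial.natDegree_X, (hP j).1]
      have := hd j
      omega
    have h3 : Tendsto (fun x : ℝ => (P j - Polynomial.X).eval x) atTop atTop := by
      apply Polynomial.tendsto_atTop_of_leadingCoeff_nonneg
      · rw [← Polynomial.natDegree_pos_iff_degree_pos, h1, (hP j).1]
        have := hd j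
        omega
      · rw [h2]
        exact (hP j).2.1.le
    filter_upwards [h3.eventually_ge_atTop 0] with x hx
    rw [Polynomial.eval_sub, Polynomial.eval_X] at hx
    linarith
  obtain ⟨X₀, hX₀⟩ := eventually_atTop.1 (eventually_all.2 hbig)
  have hb1 : (1 : ℝ) < b := by exact_mod_cast (by omega : 1 < b)
  have hZlim : Tendsto (fun k : ℕ => (b : ℝ) ^ k) atTop atTop := tendsto_pow_atTop_atTop_of_one_lt hb1
  obtain ⟨k₁, hk₁⟩ := eventually_atTop.1 (((tendsto_rpow_atTop (by norm_num : (0 : ℝ) < 1 / 2)).comp hZlim).eventually_ge_atTop X₀)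
  refine ⟨κ, hκ, k₀ + k₁, fun k hk D hD => ?_⟩
  have hZ1 : (1 : ℝ) ≤ (b : ℝ) ^ k := one_le_pow₀ hb1.le
  have h1 := h k (by omega) D hD P (fun j => ⟨(hP j).1.le, by rw [← (hP j).1]; rfl⟩) (by
    intro n _ hn j
    have h2 : ((b : ℝ) ^ k) ^ (1 / 2 : ℝ) ≤ ((b : ℝ) ^ k) ^ (1 - δ) :=
      Real.rpow_le_rpow_of_exponent_le hZ1 (by linarith)
    have h3 : ((b : ℝ) ^ k) ^ δ ≤ ((b : ℝ) ^ k) ^ (1 / 2 : ℝ) :=
      Real.rpow_le_rpow_of_exponent_le hZ1 hδ2
    have h4 : X₀ ≤ ((b : ℝ) ^ k) ^ (1 / 2 : ℝ) := hk₁ k (by omega)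
    have h5 := hX₀ (n : ℝ) (by linarith) j
    linarith)
  refine le_trans (mul_le_mul_of_nonneg_left ?_ (Nat.cast_nonneg _)) h1
  exact Real.rpow_le_rpow_of_exponent_le hZ1 (by linarith)

end Pool.Agent.Results.MP_ff81b6_nt.RestrictedDigitsInRecordGaps
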