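import Pool.Agent.J4.H70.SM.Fin

/-!
# Random models for the primes that take divisibility by small primes into account

Cramer's random model for the primes gives `L = 1` for the normalised largest gap
`L = limsup (q_{j+1} - q_j) / (log q_j)²`; sieving by the small primes first (Granville) gives
more.  A sieve level is a function `z : ℕ → ℕ`; in the dyadic block `[2 ^ k, 2 ^ (k + 1))` the
integers with a prime factor `≤ z k` are removed and the other integers `n` are kept
independently, each with probability `1 / (V (z k) log n)` (capped at one), where `V (z k)` is the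
density of the integers without prime factor `≤ z k`
(`Pool.Agent.H318R2.Cr.IsSievedModel`, with `A n` the event that `n` is kept).
Since `log n` is about `k log 2` in the `k`-th block, `z k = k ^ η` means that one sieves by all
primes up to a fixed power of `log n`.  The only assumption on the sieve level is that it is
subexponential in `k`, that is, `z = n ^ o(1)`.

The theorem finds the sieve levels for which the largest gaps are those of Cramer's model.
* Such a model exists for every sieve level.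
* For every `η > 0` there is `δ > 0` such that `L ≥ 1 + δ` almost surely for every model whose
  sieve level exceeds `k ^ η` infinitely often.
* For every `ε > 0` there is `η > 0` such that `L ≤ 1 + ε` almost surely for every model whose
  sieve level is at most `k ^ η` from some point on.
* `L ≥ 1` almost surely, for every model.
* `L = 1` almost surely if and only if `log (z k) / log k → 0`.
* If for each `θ < 1` the sieve level exceeds `k ^ θ` infinitely often, then almost surely
  `L ≥ 2 e ^ (-γ) = 1.1229...`, Granville's constant.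
-/

set_option autoImplicit false

universe u

namespace Pool.Agent.Results.MP_ff81b6_nt.SievedRandomModels

open Filter Topology MeasureTheory
open Pool.Agent.H318R2.Cr (IsSievedModel cramerLimsup)

theorem result :
    (∀ z : ℕ → ℕ, ∃ (Ω : Type) (_ : MeasurableSpace Ω) (μ : Measure Ω) (A : ℕ → Set Ω),
      IsProbabilityMeasure μ ∧ IsSievedModel μ z A) ∧
    (∀ η : ℝ, 0 < η → ∃ δ : ℝ, 0 < δ ∧
      ∀ (Ω : Type u) [MeasurableSpace Ω] (μ : Measure Ω) [IsProbabilityMeasure μ] (z : ℕ → ℕ)
        (A : ℕ → Set Ω), IsSievedModel μ z A →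
        Tendsto (fun k : ℕ => Real.log (z k) / k) atTop (𝓝 0) →
        (∃ᶠ k : ℕ in atTop, (k : ℝ) ^ η ≤ z k) →
        ∀ᵐ ω ∂μ, ((1 + δ : ℝ) : EReal) ≤ cramerLimsup {n | ω ∈ A n}) ∧
    (∀ ε : ℝ, 0 < ε → ∃ η : ℝ, 0 < η ∧
      ∀ (Ω : Type u) [MeasurableSpace Ω] (μ : Measure Ω) [IsProbabilityMeasure μ] (z : ℕ → ℕ)
        (A : ℕ → Set Ω), IsSievedModel μ z A →
        (∀ᶠ k : ℕ in atTop, (z k : ℝ) ≤ (k : ℝ) ^ η) →
        ∀ᵐ ω ∂μ, cramerLimsup {n | ω ∈ A n} ≤ ((1 + ε : ℝ) : EReal)) ∧
    (∀ (Ω : Type u) [MeasurableSpace Ω] (μ : Measure Ω) [IsProbabilityMeasure μ] (z : ℕ → ℕ)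
      (A : ℕ → Set Ω), IsSievedModel μ z A →
      Tendsto (fun k : ℕ => Real.log (z k) / k) atTop (𝓝 0) →
      (∀ᵐ ω ∂μ, (1 : EReal) ≤ cramerLimsup {n | ω ∈ A n}) ∧
      ((∀ᵐ ω ∂μ, cramerLimsup {n | ω ∈ A n} = 1) ↔
        Tendsto (fun k : ℕ => Real.log (z k) / Real.log k) atTop (𝓝 0)) ∧
      ((∀ θ : ℝ, θ < 1 → ∃ᶠ k : ℕ in atTop, (k : ℝ) ^ θ ≤ z k) →
        ∀ᵐ ω ∂μ, ((2 * Real.exp (-Real.eulerMascheroniConstant) : ℝ) : EReal) ≤
          cramerLimsup {n | ω ∈ A n})) := by
  have h2 : ∀ ε : ℝ, 0 < ε → ∃ η : ℝ, 0 < η ∧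
      ∀ (Ω : Type u) [MeasurableSpace Ω] (μ : Measure Ω) [IsProbabilityMeasure μ] (z : ℕ → ℕ)
        (A : ℕ → Set Ω), IsSievedModel μ z A →
        (∀ᶠ k : ℕ in atTop, (z k : ℝ) ≤ (k : ℝ) ^ η) →
        ∀ᵐ ω ∂μ, cramerLimsup {n | ω ∈ A n} ≤ ((1 + ε : ℝ) : EReal) := by
    intro ε hε
    obtain ⟨η, hη, h⟩ := Pool.Agent.J4.H70.SM.upper_ev (C := 1 + ε) (by linarith)
    refine ⟨η, hη, ?_⟩
    intro Ω _ μ _ z A hA hz
    exact Pool.Agent.J4.H70.SM.upper (by linarith) (h z hz) hA
  refine ⟨Pool.Agent.J4.H70.SM.exists_model, ?_, h2, ?_⟩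
  · intro η hη
    obtain ⟨δ, hδ, h⟩ := Pool.Agent.J4.H70.SM.one_add_le.{u} hη
    refine ⟨δ, hδ, ?_⟩
    intro Ω _ μ _ z A hA hz hf
    exact h hz hf hA
  · intro Ω _ μ _ z A hA hz
    have h1 := Pool.Agent.J4.H70.SM.one_le hz hA
    refine ⟨h1, ⟨fun h => ?_, fun h => ?_⟩, fun h => Pool.Agent.J4.H70.SM.granville hz h hA⟩
    · -- if the ratio does not tend to zero then `L > 1`
      by_contra hcon
      have h3 : ∃ η : ℝ, 0 < η ∧ ∃ᶠ k : ℕ in atTop, (k : ℝ) ^ η ≤ z k := by
        by_contra hcon2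
        push Not at hcon2
        apply hcon
        rw [Metric.tendsto_atTop]
        intro ε hε
        have h4 := hcon2 (ε / 2) (by positivity)
        obtain ⟨N, hN⟩ := eventually_atTop.1 (h4.and (eventually_ge_atTop 2))
        refine ⟨N, fun k hk => ?_⟩
        obtain ⟨h5, h6⟩ := hN k hk
        have hkr : (2 : ℝ) ≤ k := by exact_mod_cast h6
        have hlk : 0 < Real.log k := Real.log_pos (by linarith)
        rw [Real.dist_eq, sub_zero, abs_of_nonneg
          (div_nonneg (Real.log_natCast_nonneg _) hlk.le), div_lt_iff₀ hlk]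
        rcases Nat.eq_zero_or_pos (z k) with h0 | h0
        · rw [h0]
          simp only [Nat.cast_zero, Real.log_zero]
          positivity
        · have h7 : (0 : ℝ) < z k := by exact_mod_cast h0
          have h8 := Real.log_lt_log h7 h5
          rw [Real.log_rpow (by linarith)] at h8
          have : ε / 2 * Real.log k ≤ ε * Real.log k := by
            apply mul_le_mul_of_nonneg_right _ hlk.le
            linarith
          linarith
      obtain ⟨η, hη, hf⟩ := h3
      obtain ⟨δ, hδ, h5⟩ := Pool.Agent.J4.H70.SM.one_add_le.{u} hη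
      have h6 := h5 hz hf hA
      obtain ⟨ω, h7, h8⟩ := (h.and h6).exists
      rw [h7] at h8
      have h9 : (1 + δ : ℝ) ≤ 1 := by exact_mod_cast h8
      linarith
    · have h3 : ∀ j : ℕ, ∀ᵐ ω ∂μ, cramerLimsup {n | ω ∈ A n} ≤
          ((1 + 1 / ((j : ℝ) + 1) : ℝ) : EReal) := by
        intro j
        obtain ⟨η, hη, h4⟩ := h2 (1 / ((j : ℝ) + 1)) (by positivity)
        exact h4 Ω μ z A hA (Pool.Agent.J4.H70.SM.le_rpow_of h η hη)
      filter_upwards [h1, ae_all_iff.2 h3] with ω h4 h5
      apply le_antisymm _ h4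
      apply ge_of_tendsto' (x := atTop) (f := fun j : ℕ =>
        ((1 + 1 / ((j : ℝ) + 1) : ℝ) : EReal)) ?_ h5
      have h6 : Tendsto (fun j : ℕ => 1 + 1 / ((j : ℝ) + 1)) atTop (𝓝 (1 + 0)) :=
        tendsto_one_div_add_atTop_nhds_zero_nat.const_add 1
      rw [add_zero] at h6
      exact_mod_cast (continuous_coe_real_ereal.tendsto (1 : ℝ)).comp h6

end Pool.Agent.Results.MP_ff81b6_nt.SievedRandomModels
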